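import Pool.Agent.H31.DP.Targets

/-!
Definitions for the project DPD (polynomial phases) on `MP_c59857_nt`.
-/

set_option autoImplicit false

open Finset Filter Topology

namespace Pool.Agent.H31.DPD

open Pool.Agent.H91.LF (lz Bdd Mean sqw par)
open Pool.Agent.H24.T2 (Pset box cub)
open Pool.Agent.H31.DP

/-- The sum of the `s i`, `i ∈ I`. -/
def sI {d : ℕ} (s : Fin d → ℤ) (I : Finset (Fin d)) : ℤ := ∑ i ∈ I, s i

/-- The `y` such that all the vertices `y + sI s I` of the cube lie in `[1, M]`. -/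
noncomputable def IC {d : ℕ} (M : ℕ) (s : Fin d → ℤ) : Finset ℤ :=
  (Finset.Icc (1 : ℤ) M).filter (fun y => ∀ I : Finset (Fin d), 1 ≤ y + sI s I ∧ y + sI s I ≤ M)

/-- The product of `FF h p` over the vertices of the cube. -/
noncomputable def GC {l d : ℕ} (h : Fin l → ℕ) (p : ℕ) (s : Fin d → ℤ) (y : ℤ) : ℝ :=
  ∏ I : Finset (Fin d), FF h p (y + sI s I)

/-- The product of `a` over the vertices of the cube, with conjugations at the odd vertices. -/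
noncomputable def AC {d : ℕ} (a : ℤ → ℂ) (s : Fin d → ℤ) (y : ℤ) : ℂ :=
  ∏ I : Finset (Fin d), (if Even I.card then a (y + sI s I) else (starRingEnd ℂ) (a (y + sI s I)))

/-- The decoupling defect on `ω = (y, y', s_1, .., s_d)`. -/
noncomputable def dc {l d : ℕ} (h : Fin l → ℕ) (p : ℕ) (ω : Fin (d + 2) → ℤ) : ℝ :=
  (p : ℝ) ^ d * ind (∀ i : Fin d, (p : ℤ) ∣ par ω i) *
    (bal p (ω 0) * bal p (ω 1) * (GC h p (par ω) (ω 0) * GC h p (par ω) (ω 1)))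

/-- The domain of the `(y, y', s)` with `y, y' ∈ IC M s`. -/
noncomputable def Oc (d M : ℕ) : Finset (Fin (d + 2) → ℤ) :=
  (Fintype.piFinset (fun _ : Fin (d + 2) => Finset.Icc (-(M : ℤ)) M)).filter (fun ω =>
    ω 0 ∈ IC M (par ω) ∧ ω 1 ∈ IC M (par ω))

/-- The finite averages: logarithmic in `M ∈ [x, y]`, uniform on `Oc d M`. -/
noncomputable def avc (d x y : ℕ) (f : (Fin (d + 2) → ℤ) → ℝ) : ℝ :=
  (∑ M ∈ Finset.Icc x y, (1 / (M : ℝ)) * ((∑ ω ∈ Oc d M, f ω) / ((Oc d M).card : ℝ))) /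
    ∑ M ∈ Finset.Icc x y, (1 / (M : ℝ))

/-- The vectors in `[-M, M] ^ d` whose coordinates are multiples of `Q`. -/
noncomputable def mulc (d Q M : ℕ) : Finset (Fin d → ℤ) := Fintype.piFinset (fun _ => mul Q M)

/-- The correlation over the cubes with sides `s`. -/
noncomputable def CAc {l d : ℕ} (h : Fin l → ℕ) (p M : ℕ) (s : Fin d → ℤ) : ℝ :=
  ∑ y ∈ IC M s, GC h p s y

/-- The correlation over the cubes with sides `s` whose base point is a multiple of `p`. -/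
noncomputable def CBc {l d : ℕ} (h : Fin l → ℕ) (p M : ℕ) (s : Fin d → ℤ) : ℝ :=
  ∑ y ∈ (IC M s).filter (fun y => (p : ℤ) ∣ y), GC h p s y

/-- The balanced correlation over the cubes with sides `s`. -/
noncomputable def TTc {l d : ℕ} (h : Fin l → ℕ) (p M : ℕ) (s : Fin d → ℤ) : ℝ :=
  ∑ y ∈ IC M s, bal p y * GC h p s y

/-- The decoupling defect at the scale `M` (not normalised; of size at most `M ^ (d + 2)`). -/
noncomputable def DDc (d : ℕ) {l : ℕ} (h : Fin l → ℕ) (p M : ℕ) : ℝ :=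
  (p : ℝ) ^ d * ∑ s ∈ mulc d p M, (TTc h p M s) ^ 2

/-- The sum of `FF h 1` with a polynomial phase. -/
noncomputable def SgP {l : ℕ} (h : Fin l → ℕ) (N : ℕ) (P : Polynomial ℝ) : ℂ :=
  ∑ n ∈ Finset.Icc 1 N, ((FF h 1 (n : ℤ) : ℝ) : ℂ) * ee (P.eval (n : ℝ))

/-- The twisted sum of the correlations over the cubes with sides in `Q ℤ`. -/
noncomputable def RCc (d : ℕ) {l : ℕ} (h : Fin l → ℕ) (p Q M : ℕ) (γ : ℝ) : ℂ :=
  ∑ s ∈ mulc d Q M, ee ((d.factorial : ℝ) * (γ / (p : ℝ) ^ d) * ((∏ i, s i : ℤ) : ℝ)) *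
    ((CAc h p M s : ℝ) : ℂ)

/-- The minor arcs for the leading coefficient: `‖q γ‖ ≥ K / N ^ d` for all `1 ≤ q ≤ K`. -/
def MinorD (K N d : ℕ) (γ : ℝ) : Prop :=
  ∀ q : ℕ, 1 ≤ q → q ≤ K → ∀ a : ℤ, (K : ℝ) ≤ (N : ℝ) ^ d * |(q : ℝ) * γ - a|

/-- The minor arcs for polynomials: for every `1 ≤ q ≤ K` there is `1 ≤ j ≤ d` with
`‖q α_j‖ ≥ K / N ^ j`. -/
def NonMaj (K N d : ℕ) (P : Polynomial ℝ) : Prop :=
  ∀ q : ℕ, 1 ≤ q → q ≤ K → ∃ j : ℕ, 1 ≤ j ∧ j ≤ d ∧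
    ∀ a : ℤ, (K : ℝ) ≤ (N : ℝ) ^ j * |(q : ℝ) * P.coeff j - a|

/-- The sum of `fm` with a polynomial phase. -/
noncomputable def SmP {r : ℕ} (β : Fin r → ℤ) (δ : Fin r → ℕ) (N : ℕ) (P : Polynomial ℝ) : ℂ :=
  ∑ n ∈ Finset.Icc 1 N, ((fm β δ n : ℝ) : ℂ) * ee (P.eval (n : ℝ))

end Pool.Agent.H31.DPD
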