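import Pool.Agent.H31.DPD.Targets
import Pool.Agent.H31.DP.All
import Pool.Agent.H98.KS.Asm
import Pool.Agent.H95.DPD.MD
import Pool.Agent.H37.DPD.OB
import Pool.Agent.H95.DPD.UA
import Pool.Agent.H72.DPD.UM
import Pool.Agent.H61.DPD.DC
import Pool.Agent.H56.DPD.ID
import Pool.Agent.H61.DPD.MK
import Pool.Agent.H21.DPD.UD
import Pool.Agent.H3.DPD.SQ
import Pool.Agent.H49.DPD.KC
import Pool.Agent.H77.DPD.LB
import Pool.Agent.H79.DPD.CT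
import Pool.Agent.H3.DPD.ND
import Pool.Agent.H29.DPD.RM
import Pool.Agent.H29.DPD.GS
import Pool.Agent.H79.DPD.CM
import Pool.Agent.H34.DPD.SS
import Pool.Agent.H69.DPD.T1
import Pool.Agent.H94.DPD.TM
import Pool.Agent.H40.DPD.BL
import Pool.Agent.H69.DPD.ST
import Pool.Agent.H21.DPD.PI
import Pool.Agent.H13.DPD.M1
import Pool.Agent.H97.DPD.MJ
import Pool.Agent.H69.DPD.FT

/-!
# Twisted correlations with polynomial phases: assembly (MP_c59857_nt)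
-/

set_option autoImplicit false

namespace Pool.Agent.H31.DPD.All

open Pool.Agent.H31.DP Pool.Agent.H31.DPD

theorem x_MD : P_MD := Pool.Agent.H95.DPD.pf_MD Pool.Agent.H31.DP.All.x_DS

theorem x_OB : P_OB := Pool.Agent.H37.DPD.pf_OB

theorem x_UA : P_UA := Pool.Agent.H95.DPD.pf_UA x_OB

theorem x_UM : P_UM := Pool.Agent.H72.DPD.pf_UM x_OB x_UA

theorem x_DC : P_DC := Pool.Agent.H61.DPD.pf_DC x_MD x_UM

theorem x_ID : P_ID := Pool.Agent.H56.DPD.pf_ID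

theorem x_MK : P_MK := Pool.Agent.H61.DPD.pf_MK x_OB x_ID x_DC

theorem x_UD : P_UD := Pool.Agent.H21.DPD.pf_UD Pool.Agent.H31.DP.All.x_GV

theorem x_SQ : P_SQ := Pool.Agent.H3.DPD.pf_SQ

theorem x_KC : P_KC := Pool.Agent.H49.DPD.pf_KC Pool.Agent.H31.DP.All.x_KA Pool.Agent.H31.DP.All.x_KB

theorem x_LB : P_LB := Pool.Agent.H77.DPD.pf_LB x_UD x_SQ x_KC

theorem x_CT : P_CT := Pool.Agent.H79.DPD.pf_CT Pool.Agent.H31.DP.All.x_GV

theorem x_ND : P_ND := Pool.Agent.H3.DPD.pf_ND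

theorem x_RM : P_RM := Pool.Agent.H29.DPD.pf_RM Pool.Agent.H98.KS.a_RL

theorem x_GS : P_GS := Pool.Agent.H29.DPD.pf_GS x_RM

theorem x_CM : P_CM := Pool.Agent.H79.DPD.pf_CM x_CT Pool.Agent.H31.DP.All.x_CU Pool.Agent.H31.DP.All.x_DG x_ND x_GS

theorem x_SS : P_SS := Pool.Agent.H34.DPD.pf_SS Pool.Agent.H31.DP.All.x_PG x_LB x_CM

theorem x_T1 : P_T1 := Pool.Agent.H69.DPD.pf_T1 x_MK x_SS

theorem x_TM : P_TM := Pool.Agent.H94.DPD.pf_TM x_T1 Pool.Agent.H31.DP.All.x_MU Pool.Agent.H31.DP.All.x_FO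

theorem x_BL : P_BL := Pool.Agent.H40.DPD.pf_BL

theorem x_ST : P_ST := Pool.Agent.H69.DPD.pf_ST

theorem x_PI : P_PI := Pool.Agent.H21.DPD.pf_PI x_TM x_BL x_ST

theorem x_M1 : P_M1 := Pool.Agent.H13.DPD.pf_M1

theorem x_MJ : P_MJ := Pool.Agent.H97.DPD.pf_MJ x_M1 Pool.Agent.H31.DP.All.x_M2

theorem x_FT : P_FT := Pool.Agent.H69.DPD.pf_FT x_PI x_MJ

end Pool.Agent.H31.DPD.All
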