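import Pool.Agent.H31.DPD.Defs

/-!
Statements of the modules of the project DPD (polynomial phases) on `MP_c59857_nt`.
-/

set_option autoImplicit false

open Finset Filter Topology

namespace Pool.Agent.H31.DPD

open Pool.Agent.H91.LF (lz Bdd Mean sqw par)
open Pool.Agent.H24.T2 (Pset box cub)
open Pool.Agent.H31.DP

/-! ## Part D: decoupling -/

/-- [MD] The mean level theorem. -/
def P_MD : Prop :=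
  ∃ c₀ : ℝ, 0 < c₀ ∧ ∀ (d l : ℕ) (h : Fin l → ℕ) (M : Mean (d + 2)) (θ : ℝ) (m₀ : ℕ), 0 < θ →
    ∃ m, m₀ ≤ m ∧ c₀ * 2 ^ m / m ≤ ((Pset 1 m).card : ℝ) ∧
      ∑ p ∈ Pset 1 m, |M.E (dc h p)| ≤ θ * (Pset 1 m).card

/-- [OB] The size and the boundary of the domain. -/
def P_OB : Prop :=
  ∀ d : ℕ, (∃ c : ℝ, 0 < c ∧ ∀ M : ℕ, 0 < M → c * (M : ℝ) ^ (d + 2) ≤ ((Oc d M).card : ℝ) ∧
    ((Oc d M).card : ℝ) ≤ (3 * (M : ℝ)) ^ (d + 2)) ∧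
  ∀ v : Fin (d + 2) → ℤ, ∃ C : ℝ, ∀ M : ℕ, 0 < M → ∀ (f : (Fin (d + 2) → ℤ) → ℝ) (B : ℝ),
    (∀ ω, |f ω| ≤ B) →
      |∑ ω ∈ Oc d M, f (ω + v) - ∑ ω ∈ Oc d M, f ω| ≤ C * B * (M : ℝ) ^ (d + 1)

/-- [UA] Asymptotic translation invariance of the finite averages. -/
def P_UA : Prop :=
  ∀ (d : ℕ) (x y : ℕ → ℕ), (∀ j, 0 < x j) →
    Tendsto (fun j => Real.log ((y j : ℝ) / x j)) atTop atTop →
    ∀ (v : Fin (d + 2) → ℤ) (f : (Fin (d + 2) → ℤ) → ℝ), Bdd f →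
      Tendsto (fun j => avc d (x j) (y j) (fun ω => f (ω + v)) - avc d (x j) (y j) f) atTop (𝓝 0)

/-- [UM] The limit mean. -/
def P_UM : Prop :=
  ∀ (d : ℕ) (x y : ℕ → ℕ), (∀ j, 0 < x j) →
    Tendsto (fun j => Real.log ((y j : ℝ) / x j)) atTop atTop →
    ∃ M : Mean (d + 2), ∀ (f : (Fin (d + 2) → ℤ) → ℝ) (ρ : ℝ), Bdd f →
      (∀ᶠ j in atTop, ρ ≤ avc d (x j) (y j) f) → ρ ≤ M.E f

/-- [DC] The finite form of the decoupling. -/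
def P_DC : Prop :=
  ∃ c₀ : ℝ, 0 < c₀ ∧ ∀ (d l : ℕ) (h : Fin l → ℕ) (θ : ℝ) (m₀ : ℕ), 0 < θ →
    ∃ m₁ K : ℕ, ∀ x y : ℕ, 0 < x → K * x ≤ y →
      ∃ m, m₀ ≤ m ∧ m ≤ m₁ ∧ c₀ * 2 ^ m / m ≤ ((Pset 1 m).card : ℝ) ∧
        ∑ p ∈ Pset 1 m, avc d x y (dc h p) ≤ θ * (Pset 1 m).card

/-- [ID] The sum of the defect over the domain is a sum of squares. -/
def P_ID : Prop :=
  ∀ (d l : ℕ) (h : Fin l → ℕ) (p M : ℕ), 0 < p → ∑ ω ∈ Oc d M, dc h p ω = DDc d h p M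

/-- [MK] Most scales have a small defect. -/
def P_MK : Prop :=
  ∃ c₀ : ℝ, 0 < c₀ ∧ ∀ (d l : ℕ) (h : Fin l → ℕ) (θ ρ : ℝ) (m₀ : ℕ), 0 < θ → 0 < ρ →
    ∃ m₁ K : ℕ, ∀ x y : ℕ, 0 < x → K * x ≤ y →
      ∃ m, m₀ ≤ m ∧ m ≤ m₁ ∧ c₀ * 2 ^ m / m ≤ ((Pset 1 m).card : ℝ) ∧
        ∑ M ∈ (Finset.Icc x y).filter (fun M : ℕ =>
          θ * (Pset 1 m).card * (M : ℝ) ^ (d + 2) < ∑ p ∈ Pset 1 m, DDc d h p M),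
            (1 / (M : ℝ)) ≤ ρ * Real.log ((y : ℝ) / x)

/-! ## Part C: a single scale -/

/-- [UD] The inequality of Weyl and van der Corput for a polynomial phase. -/
def P_UD : Prop :=
  ∀ (d l : ℕ) (h : Fin l → ℕ) (N : ℕ) (P : Polynomial ℝ), 0 < d → P.natDegree ≤ d →
    ‖SgP h N P‖ ^ (2 ^ d) ≤ (2 * (N : ℝ) + 1) ^ (2 ^ d - (d + 1)) * (RCc d h 1 1 N (P.coeff d)).re

/-- [SQ] Dilation by `p`. -/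
def P_SQ : Prop :=
  ∀ (d l : ℕ) (h : Fin l → ℕ) (p M : ℕ) (γ : ℝ), 0 < d → p.Prime →
    RCc d h 1 1 (M / p) γ = ∑ s ∈ mulc d p M,
      ee ((d.factorial : ℝ) * (γ / (p : ℝ) ^ d) * ((∏ i, s i : ℤ) : ℝ)) * ((CBc h p M s : ℝ) : ℂ)

/-- [KC] Refining the residue classes of the sides of the cubes. -/
def P_KC : Prop :=
  ∀ (d : ℕ) (a : ℤ → ℂ) (M p Q : ℕ), 0 < Q → p ∣ Q →
    (∑ s ∈ mulc d p M, ∑ y ∈ IC M s, AC a s y).re ≤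
      ((Q : ℝ) / p) ^ d * (∑ s ∈ mulc d Q M, ∑ y ∈ IC M s, AC a s y).re

/-- [LB] The comparison with the correlations over the cubes with sides in `Q ℤ`. -/
def P_LB : Prop :=
  ∀ (d l : ℕ) (h : Fin l → ℕ) (p Q M : ℕ) (P : Polynomial ℝ), 0 < d → P.natDegree ≤ d →
    p.Prime → p ∣ Q → 0 < Q → p ≤ M →
    (p : ℝ) ^ (d + 1) * ‖SgP h (M / p) P‖ ^ (2 ^ d) ≤
      (2 * ((M / p : ℕ) : ℝ) + 1) ^ (2 ^ d - (d + 1)) *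
        ((Q : ℝ) ^ d * (RCc d h p Q M (P.coeff d)).re +
          Real.sqrt ((3 * (M : ℝ)) ^ d * DDc d h p M))

/-- [CT] The generalised von Neumann inequality for the correlations. -/
def P_CT : Prop :=
  ∀ (d l : ℕ) (h : Fin l → ℕ) (A : Finset ℕ) (B X M : ℕ) (s : Fin d → ℤ) (c : ℤ → ℂ),
    (∀ p ∈ A, ∀ i, p * h i ≤ B) → (∀ p ∈ A, ∀ q ∈ A, |(p : ℤ) - q| ≤ (X : ℤ)) →
    ‖∑ p ∈ A, c p * ((CAc h p M s : ℝ) : ℂ)‖ ^ (2 ^ (l + 1)) ≤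
      ((M : ℝ) + B) ^ (2 ^ (l + 1)) * (2 * X + 1) ^ (2 ^ (l + 1) - (l + 2)) *
        (Uc X (l + 1) (A.map Nat.castEmbedding) c).re

/-- [ND] The iterated difference of `1 / x ^ d` over a nondegenerate cube is not zero. -/
def P_ND : Prop :=
  ∀ (d n B : ℕ) (A : Finset ℤ) (t : Fin n → ℤ) (p : ℤ), 0 < d →
    (∀ a ∈ A, 0 < a ∧ a ≤ (B : ℤ)) → (∀ i, t i ≠ 0) → p ∈ cub n A t →
    ∃ (a : ℤ) (b : ℕ), a ≠ 0 ∧ 0 < b ∧ b ≤ B ^ (d * 2 ^ n) ∧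
      |a| ≤ 2 ^ n * (B : ℤ) ^ (d * 2 ^ n) ∧
      dl n t (fun x => 1 / (x : ℝ) ^ d) p = (a : ℝ) / b

/-- [RM] Multilinear recurrence. -/
def P_RM : Prop :=
  ∀ (d : ℕ) (δ B : ℝ), 0 < δ → 0 < B → ∃ C : ℕ, ∀ M : ℕ, C ≤ M → ∀ γ : ℝ,
    δ * (M : ℝ) ^ d ≤ (((Fintype.piFinset (fun _ : Fin d => Finset.Icc (-(M : ℤ)) M)).filter
      (fun j => |γ * ((∏ i, j i : ℤ) : ℝ) - round (γ * ((∏ i, j i : ℤ) : ℝ))| ≤ B / M)).card : ℝ) →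
    ∃ q : ℕ, 1 ≤ q ∧ q ≤ C ∧ ∃ a : ℤ, |(q : ℝ) * γ - a| ≤ C / (M : ℝ) ^ (d + 1)

/-- [GS] Multilinear exponential sums on the minor arcs. -/
def P_GS : Prop :=
  ∀ (d Q B : ℕ) (τ : ℝ), 0 < d → 0 < Q → 0 < τ → ∃ K : ℕ, ∀ M : ℕ, K ≤ M → ∀ γ : ℝ,
    MinorD K M d γ → ∀ (a : ℤ) (b : ℕ), a ≠ 0 → |a| ≤ (B : ℤ) → 0 < b → b ≤ B →
    ‖∑ s ∈ mulc d Q M, ee ((d.factorial : ℝ) * (γ * (a / b)) * ((∏ i, s i : ℤ) : ℝ))‖ ≤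
      τ * (M : ℝ) ^ d

/-- [CM] Many large twisted sums of correlations are impossible on the minor arcs. -/
def P_CM : Prop :=
  ∀ (d l : ℕ) (h : Fin l → ℕ) (c τ : ℝ) (A : Finset ℕ) (X Q : ℕ), 0 < d → 0 < c → 0 < τ → 0 < Q →
    (∀ p ∈ A, 0 < p) → (∀ p ∈ A, ∀ q ∈ A, |(p : ℤ) - q| ≤ (X : ℤ)) →
    ∃ K : ℕ, ∀ M : ℕ, K ≤ M → ∀ γ : ℝ, MinorD K M d γ →
      (∀ p ∈ A, c * (M : ℝ) ^ (d + 1) ≤ (Q : ℝ) ^ d * (RCc d h p Q M γ).re) →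
      (c * A.card) ^ (2 ^ (l + 1)) ≤
        (2 * 3 ^ d) ^ (2 ^ (l + 1)) * A.card * (2 * X + 1) ^ (2 ^ (l + 1) - 2) *
          (3 ^ d * (l + 1) + τ * (2 * X + 1))

/-- [SS] A scale with a small defect: the minor arcs. -/
def P_SS : Prop :=
  ∀ (d l : ℕ) (h : Fin l → ℕ) (ε c₀ : ℝ), 0 < d → 0 < ε → ε ≤ 1 → 0 < c₀ →
    ∃ θ : ℝ, 0 < θ ∧ ∃ m₀ : ℕ, ∀ m, m₀ ≤ m → c₀ * 2 ^ m / m ≤ ((Pset 1 m).card : ℝ) →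
      ∃ P : ℕ, 0 < P ∧ P ≤ 2 ^ (m + 1) ∧ ∃ K : ℕ, ∀ M N : ℕ, K ≤ N → M / P = N →
        ∑ p ∈ Pset 1 m, DDc d h p M ≤ θ * (Pset 1 m).card * (M : ℝ) ^ (d + 2) →
        ∀ R : Polynomial ℝ, R.natDegree ≤ d → MinorD K N d (R.coeff d) → ‖SgP h N R‖ ≤ ε * N

open Classical in
/-- [T1] The minor arcs for the leading coefficient, Liouville function. -/
def P_T1 : Prop :=
  ∀ (d l : ℕ) (h : Fin l → ℕ) (ε ρ : ℝ), 0 < d → 0 < ε → 0 < ρ →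
    ∃ K : ℕ, ∀ x y : ℕ, 0 < x → K * x ≤ y →
      ∑ N ∈ (Finset.Icc x y).filter (fun N : ℕ => ∃ P : Polynomial ℝ, P.natDegree ≤ d ∧
        MinorD K N d (P.coeff d) ∧ ε * N < ‖SgP h N P‖),
        (1 / (N : ℝ)) ≤ ρ * Real.log ((y : ℝ) / x)

/-! ## Part U: from the Liouville to the Möbius function, and the lower coefficients -/

open Classical in
/-- [TM] The minor arcs for the leading coefficient, Möbius function with exponents. -/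
def P_TM : Prop :=
  ∀ (d r : ℕ) (β : Fin r → ℤ) (δ : Fin r → ℕ) (ε ρ : ℝ), 0 < d → (∀ i, 1 ≤ δ i) → 0 < ε →
    0 < ρ → ∃ K : ℕ, ∀ x y : ℕ, 0 < x → K * x ≤ y →
      ∑ N ∈ (Finset.Icc x y).filter (fun N : ℕ => ∃ P : Polynomial ℝ, P.natDegree ≤ d ∧
        MinorD K N d (P.coeff d) ∧ ε * N < ‖SmP β δ N P‖),
        (1 / (N : ℝ)) ≤ ρ * Real.log ((y : ℝ) / x)

/-- [BL] Removing a leading coefficient on the major arcs. -/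
def P_BL : Prop :=
  ∀ (d L : ℕ) (ε : ℝ), 0 < ε → ∃ (J N₀ : ℕ) (ε' : ℝ), 0 < J ∧ 0 < ε' ∧
    ∀ (f : ℕ → ℂ) (N q : ℕ) (a : ℤ) (P : Polynomial ℝ), (∀ n, ‖f n‖ ≤ 1) → N₀ ≤ N → 1 ≤ q →
      q ≤ L → P.natDegree ≤ d + 1 →
      (N : ℝ) ^ (d + 1) * |(q : ℝ) * P.coeff (d + 1) - a| < L →
      ε * N < ‖∑ n ∈ Finset.Icc 1 N, f n * ee (P.eval (n : ℝ))‖ →
      ∃ i k : ℕ, i ≤ J ∧ k < q ∧ ε' * N < ‖∑ n ∈ Finset.Icc 1 (i * N / J), f n *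
        ee ((P.erase (d + 1) + Polynomial.C ((k : ℝ) / q) * Polynomial.X).eval (n : ℝ))‖

open Classical in
/-- [ST] Scales of the form `i * N / J`. -/
def P_ST : Prop :=
  ∀ (J : ℕ) (B : Set ℕ) (x y : ℕ), 0 < J → 0 < x →
    ∑ N ∈ (Finset.Icc x y).filter (fun N : ℕ => ∃ i : ℕ, i ≤ J ∧ 0 < i * N / J ∧ i * N / J ∈ B),
      (1 / (N : ℝ)) ≤ 2 * (J : ℝ) ^ 2 *
        ∑ N ∈ (Finset.Icc (max 1 (x / J)) y).filter (fun N : ℕ => N ∈ B), (1 / (N : ℝ))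

open Classical in
/-- [PI] The minor arcs for polynomials, every order and every degree. -/
def P_PI : Prop :=
  ∀ (d r : ℕ) (β : Fin r → ℤ) (δ : Fin r → ℕ) (ε ρ : ℝ), 0 < d → (∀ i, 1 ≤ δ i) → 0 < ε →
    0 < ρ → ∃ K : ℕ, ∀ x y : ℕ, 0 < x → K * x ≤ y →
      ∑ N ∈ (Finset.Icc x y).filter (fun N : ℕ => ∃ P : Polynomial ℝ, P.natDegree ≤ d ∧
        NonMaj K N d P ∧ ε * N < ‖SmP β δ N P‖),
        (1 / (N : ℝ)) ≤ ρ * Real.log ((y : ℝ) / x)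

/-! ## Part M: major arcs -/

/-- [M1] Major arcs for polynomials, a single scale. -/
def P_M1 : Prop :=
  ∀ (d : ℕ) (f : ℕ → ℂ), (∀ n, ‖f n‖ ≤ 1) → ∀ (K J N : ℕ) (η : ℝ), 0 < K → 0 < J → 0 < N →
    (∀ q : ℕ, 1 ≤ q → q ≤ K → ∀ n₀ : ℕ, n₀ < q → ∀ i : ℕ, i ≤ J →
      ‖∑ n ∈ (Finset.Icc 1 (i * N / J)).filter (fun n : ℕ => n ≡ n₀ [MOD q]), f n‖ ≤ η * N) →
    ∀ P : Polynomial ℝ, P.natDegree ≤ d → ¬ NonMaj K N d P →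
      ‖∑ n ∈ Finset.Icc 1 N, f n * ee (P.eval (n : ℝ))‖ ≤
        (1 + 2 * Real.pi * d * K) * (K * η * N + N / J + 1)

open Classical in
/-- [MJ] The major arcs for pairs. -/
def P_MJ : Prop :=
  ∀ (d r : ℕ) (β : Fin r → ℤ) (δ : Fin r → ℕ) (L : ℕ) (ε ρ : ℝ), Pair β δ → 0 < ε → 0 < ρ →
    ∃ K : ℕ, ∀ x y : ℕ, 0 < x → K * x ≤ y →
      ∑ N ∈ (Finset.Icc x y).filter (fun N : ℕ => ∃ P : Polynomial ℝ, P.natDegree ≤ d ∧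
        ¬ NonMaj L N d P ∧ ε * N < ‖SmP β δ N P‖),
        (1 / (N : ℝ)) ≤ ρ * Real.log ((y : ℝ) / x)

open Classical in
/-- [FT] The final theorem: for every order on the minor arcs, and for pairs everywhere. -/
def P_FT : Prop :=
  ∀ (d r : ℕ) (β : Fin r → ℤ) (δ : Fin r → ℕ) (ε ρ : ℝ), 0 < d → (∀ i, 1 ≤ δ i) → 0 < ε →
    0 < ρ → ∃ K : ℕ, ∀ x y : ℕ, 0 < x → K * x ≤ y →
      ∑ N ∈ (Finset.Icc x y).filter (fun N : ℕ => ∃ P : Polynomial ℝ, P.natDegree ≤ d ∧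
        (Pair β δ ∨ NonMaj K N d P) ∧ ε * N < ‖SmP β δ N P‖),
        (1 / (N : ℝ)) ≤ ρ * Real.log ((y : ℝ) / x)

end Pool.Agent.H31.DPD
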